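import Pool.Agent.X227.UP.MT

/-!
# The Mumford-Tate conjecture for all powers: only finitely many factors matter

Let `W` be étale cohomology with coefficients in an algebraic closure of `ℚ_ℓ` on the smooth
projective varieties over the algebraic closure of a number field `k`, with the action of the Galois
group `Γ` of `k` (`GaloisData`; the varieties are defined over `k`, after a finite extension; Tate
classes are classes in `H^(2j)` on which a subgroup of finite index acts by `χ ^ j`) and with the
rational Hodge structures which it has by the comparison with the cohomology of the complex manifolds
(`HodgeData`, for an isomorphism of the coefficients with `ℂ`).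

The Mumford-Tate conjecture for a variety `Y` says (up to the semisimplicity of the Galois
representation) that for ALL powers of `Y` the Tate classes are the linear combinations of the Hodge
classes; this is `MumfordTateAll Ψ G Y`.

Let `X i` be any family of odd-dimensional varieties, which may be infinite, such that homological and
numerical equivalence coincide on `X i`, the transcendental cohomology `T i` (the orthogonal
complement of all algebraic classes) is concentrated in the middle degree, the Mumford-Tate group and
also the group `Γ` act irreducibly on the Lie algebra of the operators on `T i` which are skew for the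
intersection form, some element of `Γ` has two eigenvalues on `T i` whose quotient is not a root of
unity, and these adjoint representations are pairwise not isomorphic, for both groups (examples:
general complete intersections of odd dimension, general curves). Let `Z` be ANY variety.

The theorem: there is ONE finite set `B` of indices, with
`∑ (dim T i) (dim T i + 1) / 2 ≤ 2 (dim H(Z)) ^ 2`, which works for all powers of `Z` at once:

(1) For all `n` and all lists `L` of indices the conjecture (for the classes on the variety) for
`Z^(n+1) × ∏_{i ∈ L} X i` is equivalent to the conjecture for the products with the small sublists of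
`L`, which consist of elements of `B`: for some degree `m` of the right parity the product of the
numbers (exponent of `X i`) + 1 and the sum of the `dim T i` are at most the Betti number
`b_m(Z^(n+1))`.

(2) For all lists `L` the Mumford-Tate conjecture for `Z × ∏_{i ∈ L} X i`, i.e. for all powers of this
variety, is equivalent to the Mumford-Tate conjecture for `Z × ∏_{i ∈ L, i ∈ B} X i`: all
the factors which are not in `B` can be omitted. So the conjecture for `Z` and all the infinitely many
`X i` together is a question about `Z` and the finitely many `X i` with `i ∈ B`.

(3) No `i ∈ B` is separated from `Z` both by the eigenvalues of one element of `Γ` (`MonApart`) and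
by Hodge types (`TypeSep`).

The idea of the proof: if the factor `X i` matters for some power of `Z` then its adjoint
representation acts by derivations of `H(Z^(n+1))`, which can be chosen to commute with all
endomorphisms of `Z^(n+1)`, in particular with the permutations of the factors; so they are determined
by their restriction to the cohomology of one factor `Z`, and these restrictions are linearly
independent for the different `i`.
-/

open CategoryTheory AlgebraicGeometry

universe u

namespace Pool.Agent.Results.MP_c1bb77_ag.FinitelyManyFactors

open Pool.Agent.H914 Pool.Agent.H914.VarClass Pool.Agent.H914.VarClass.Obj Pool.Agent.Y132.AH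
  Pool.Agent.X227.NP Pool.Agent.X227.UP

variable {k : Type u} [Field k] {𝒱 : VarClass k} {ops : CycleOps 𝒱}

theorem result (W : WeilCohomology.{u, 0} ops) [IsAlgClosed W.K] {Γ : Type} [Group Γ]
    (Ψ : HodgeData W) (G : GaloisData W Γ) {ι : Type} [DecidableEq ι] (X : ι → 𝒱.Obj)
    (hX : TwoFamily Ψ G X) (Z : 𝒱.Obj) :
    ∃ B : Finset ι, ∑ i ∈ B, (trDim W (X i) + 1).choose 2 ≤ 2 * totDim W Z ^ 2 ∧
      (∀ i ∈ B, ¬(MonApart G (X i) Z ∧ TypeSep Ψ (X i) Z)) ∧
      (∀ (n : ℕ) (L : List ι), MumfordTate Ψ G (prodList X (powN Z n) L) ↔
        ∀ L' : List ι, L'.Sublist L → SmallDim W X (powN Z n) B L' →
          MumfordTate Ψ G (prodList X (powN Z n) L')) ∧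
      ∀ L : List ι, MumfordTateAll Ψ G (prodList X Z L) ↔
        MumfordTateAll Ψ G (prodList X Z (L.filter (· ∈ B))) := by
  obtain ⟨B, h1, h2, h3, -⟩ := mt_uniform Ψ G Z hX
  exact ⟨B, h1, h2, h3, fun L => mt_only Ψ G h3 hX L⟩

end Pool.Agent.Results.MP_c1bb77_ag.FinitelyManyFactors
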