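import Pool.Agent.X312.FM.Main

/-!
# A gap law for the equality of Hodge classes and Tate classes on `Y × X ^ n`

Let `k` be a number field with an embedding of its algebraic closure in `ℂ`, `ℓ` a prime, and let
`X` and `Y` be **any** smooth projective varieties over `k`. For a variety `Z` let `A(Z)` and
`B(Z)` be the subspaces of `⊕_j H^(2 j)(Z, ℚ_ℓ(j))` generated by the **Hodge classes**, and of the
**Tate classes**, that is of the classes fixed by an open subgroup of the Galois group, and let
`AH(Z) ⊂ A(Z) ∩ B(Z)` be the subspace generated by the absolute Hodge classes. Let `b` be the sum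
of the Betti numbers of `X`. For all `m ≥ 1`: **the Hodge classes generate the space of the Tate
classes on** `Y × X ^ m`, `A(Y × X ^ m) = B(Y × X ^ m)`, **or for all** `n ≥ 1`

`dim (A(Y × X ^ n) + B(Y × X ^ n)) - dim (A(Y × X ^ n) ∩ B(Y × X ^ n)) ≥ (1 - 4 (m + 3) b ^ (m +
5) log (n + 1) / n) dim AH(X ^ n)`.

Nothing is assumed on `X` and `Y`. The Mumford-Tate conjecture for all the groups `H^i(X)`,
`H^i(Y)` together (for the sum of these groups) implies `A = B` for all products of powers of `X`
and `Y`, and it is equivalent to this equality if the Galois representations are semisimple. So if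
Hodge classes and Tate classes are different on one `Y × X ^ m`, they are very different on all
the varieties `Y × X ^ n`, although it is not assumed that Hodge classes are Tate classes or
conversely.

The families `A` and `B` are stable under pull-backs, push-forwards and products with absolute
Hodge classes, and the pairing on absolute Hodge classes is nondegenerate by the Hodge index
theorem. Apply the following argument to the families `A ∩ B ⊂ A + B`.

The proof. Identify the classes on `Y × Z` with the homomorphisms `H(Y) → H(Z)`. Two families `N'
⊂ N` of spaces of classes as above are stable under the correspondences in `AH` from `Z` to `Z'`.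
If they differ for `Y × P`, `P = X ^ m`, one takes an idempotent correspondence `g` on `P` of
minimal rank which does not vanish on `N(Y × P) / N'(Y × P)` and an element `z` of `g N(Y × P)`
which is not in `N'(Y × P)`. A correspondence `x` with `x z ∈ N'(Y × P)` has a nilpotent
compression `g x g`, so the trace of `g x` vanishes; therefore `dim N(Y × Z) / N'(Y × Z)` is at
least the rank of the trace form `(u, v) ↦ tr (g v u)` for all `Z`, and for `Z = X ^ n` this rank
is compared with `dim AH(X ^ n)` by the log-convexity of the sequence of these dimensions and by
the symmetric group.
-/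

set_option autoImplicit false

open CategoryTheory AlgebraicGeometry

universe u v w

namespace Pool.Agent.Results.MP_c1bb77_ag.GapLaw

open Pool.Agent.H914 VarClass Obj WeilCohomology
open Pool.Agent.X312.FM (Family IsRingFamily IsModuleFamily Agree IsNondeg dimOn gapBound)
open Pool.Agent.Y133.Half (pw)

variable {k : Type u} [Field k] {𝒱 : VarClass k} {ops : CycleOps 𝒱}
  {W : WeilCohomology.{u, v} ops}

/-- The sum of the Betti numbers of `X`. -/
noncomputable def totalBetti (W : WeilCohomology.{u, v} ops) (X : 𝒱.Obj) : ℕ :=
  Module.finrank W.K (W.H X)

/-- The dimension of the sum of two subspaces. -/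
noncomputable def dimSum {K V : Type v} [Field K] [AddCommGroup V] [Module K V]
    (A B : Submodule K V) : ℕ := Module.finrank K (A ⊔ B : Submodule K V)

/-- The dimension of the intersection of two subspaces. -/
noncomputable def dimInter {K V : Type v} [Field K] [AddCommGroup V] [Module K V]
    (A B : Submodule K V) : ℕ := Module.finrank K (A ⊓ B : Submodule K V)

/-- **The gap law for the equality of two families.** In the intended use `C`, `A` and `B` are the
families of the spaces generated by the absolute Hodge classes, by the Hodge classes and of the Tate
classes. Here `dimOn C Z` is the dimension of `C Z`, and `pw X m` is the product of `m + 1` copies of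
`X`. -/
theorem result (C A B : Family W) (hC : IsRingFamily C) (hA : IsModuleFamily C A)
    (hB : IsModuleFamily C B) (X Y : 𝒱.Obj) (hX : ∀ n, IsNondeg C (pw X n)) (m : ℕ) :
    Agree A B (Y.prod (pw X m)) ∨
    ∀ n : ℕ, dimInter (A (Y.prod (pw X n))) (B (Y.prod (pw X n))) +
      gapBound (totalBetti W X) (dimOn C (pw X n)) m n ≤
      dimSum (A (Y.prod (pw X n))) (B (Y.prod (pw X n))) :=
  Pool.Agent.X312.FM.eq_law hC hA hB X Y hX m

end Pool.Agent.Results.MP_c1bb77_ag.GapLaw
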