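import Pool.Agent.X120.BM.Mt

/-!
# The Mumford-Tate conjecture for sums of a motive and of the fibres over `b_i^(-t_i)` of
# families of Calabi-Yau type with big symplectic monodromy

Let `V_i`, `1 ≤ i ≤ k`, be variations of Hodge structure with `h^{w_i, 0} = 1` (of Calabi-Yau type) over the projective line without finitely many points, which come from families over `ℚ`, with a
nondegenerate alternating form, such that the monodromy group is dense in a symplectic group. The fibre over `x = 0` may be smooth or degenerate: we suppose that near `x = 0` the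
period matrix is `L_i(log (1/x)) P_i(x)`, where the entries of `P_i` are polynomials with any complex coefficients in a system of G-functions with rational coefficients which are solutions of a
differential system with a regular singularity with rational exponents at infinity, and the entries of `L_i(u)` are polynomials. Let `X_i` be the fibre over the rational
point `b_i^(-t_i)`, and let `V_0` be a rational Hodge structure of dimension `n_0` (or a sum of Hodge structures of different weights) which contains a subspace `ℚ u` of type `(1, 1)`, for example the cohomology of a smooth projective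
variety `Y` over a number field, of positive dimension, or its sum with the Tate structure. Let `Φ_0` be its Hodge operator (multiplication by `p` on `H^{p,q}`).

The Lie algebra of the Mumford-Tate group of `V = V_0 ⊕ V_1 ⊕ … ⊕ V_k` is the smallest rational Lie algebra whose complexification contains the Hodge operator `(Φ_0, Φ_1, …, Φ_k)`: it is generated over `ℂ` by the conjugates of this
operator, which span the Lie algebras of tori, and a Lie algebra which is generated by algebraic Lie algebras is algebraic. The Lie algebra `L` of the algebraic monodromy group `G_ℓ` over `E = ℚ_ℓ` is a space of similitudes: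
its elements `X` act on `u` by a scalar `c` (the derivative of the cyclotomic character) and on the forms `A_i` by `c w_i`. Since `G_ℓ°` and the Mumford-Tate group are connected, inclusions and equality of these groups are the
same as for the Lie algebras.

**Theorem.** Let `b_i ≥ 2` be integers. There is a constant `C`, which depends only on the G-functions, the ranks, the degrees `e` of the polynomials, the `b_i` and on `n_0`, such that for all such `V_0` and
`V_i`, for all but `C N^(k-1) log N` of the `N^k` points `x = (b_1^(-t_1), …, b_k^(-t_k))`, `1 ≤ t_i ≤ N` (for `k = 1` for all but `C log N` of the points `b^(-t)`):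

1. The Mumford-Tate group of `V` is as big as possible relative to that of `V_0`: its Lie algebra consists of all similitudes `(X_0, X_1, …, X_k)` (with the same multiplier) with `X_0` in the Lie algebra of the Mumford-Tate group of `V_0`.

2. For all primes `ℓ` and number fields, `G_ℓ°(V) ⊆ MT(V)` if and only if `G_ℓ°(V_0) ⊆ MT(V_0)`.

3. For all primes `ℓ` and number fields, `G_ℓ°(V) = MT(V)` if and only if `G_ℓ°(V_0) = MT(V_0)` and `G_ℓ` contains `1 × ∏ Sp(V_i)`.

So the question is reduced to `Y` and to a question on Galois representations only; for abelian varieties `Y` the inclusion in 2. holds. (For one family without `V_0` the image of the Galois group is open in the group of similitudes for all but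
finitely many rational points by Cadoret and Tamagawa, so that 3. gives the Mumford-Tate conjecture for `H^w(X_1)` for all but `C log N` of the points `b^(-t)`, `t ≤ N`, if the rest of the cohomology in this degree is algebraic.)
Such results were known only for families of abelian type and for the hypergeometric families; here the families are general.

Proof. By the counting theorem on geometric sequences the Lie algebra contains `0 × ∏ sp(V_i)` for these points (`Pool.Agent.X120.HG`, `Pool.Agent.X120.BM`).
-/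

set_option autoImplicit false

open Pool.Agent.X120.BM

namespace Pool.Agent.Results.MP_c1bb77_ag.MonodromyInMTAtPowers

section
variable {n₀ k : ℕ} {n : Fin k → ℕ}

/-- The Lie algebra of the Mumford–Tate group of the sum consists of the similitudes over the Lie algebra of the Mumford–Tate group of `V_0`. -/
def IsMaximal (Φ₀ : Matrix (Fin n₀) (Fin n₀) ℂ) (Φ : ∀ i, Matrix (Fin (n i)) (Fin (n i)) ℂ) (u : Fin n₀ → ℚ) (w : Fin k → ℕ)
    (A : ∀ i, Matrix (Fin (n i)) (Fin (n i)) ℚ) : Prop :=
  ∀ X : Tup n₀ n ℚ, X ∈ mumfordTate Φ₀ Φ ↔ X.1 ∈ mumfordTate₀ Φ₀ ∧ IsSimilitude ℚ u w A X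

variable {E : Type} [Field E] [Algebra ℚ E]

/-- the projection of `L` to `V_0` -/
def image (L : Submodule E (Tup n₀ n E)) : Submodule E (Matrix (Fin n₀) (Fin n₀) E) := L.map (LinearMap.fst E _ _)

/-- `L` contains `0 × 𝔰𝔭(A_1)(E) × … × 𝔰𝔭(A_k)(E)`. -/
def ContainsSp (A : ∀ i, Matrix (Fin (n i)) (Fin (n i)) ℚ) (L : Submodule E (Tup n₀ n E)) : Prop :=
  ∀ X : ∀ i, Matrix (Fin (n i)) (Fin (n i)) E,
    (∀ i, X i * (A i).map (algebraMap ℚ E) + (A i).map (algebraMap ℚ E) * (X i).transpose = 0) → (0, X) ∈ L

/-- The inclusion of `L` in the Lie algebra of the Mumford–Tate group is equivalent to that for `V_0`. -/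
def InclusionReduces (Φ₀ : Matrix (Fin n₀) (Fin n₀) ℂ) (Φ : ∀ i, Matrix (Fin (n i)) (Fin (n i)) ℂ)
    (L : Submodule E (Tup n₀ n E)) : Prop :=
  L ≤ extend E (mumfordTate Φ₀ Φ) ↔ image L ≤ extend₀ E (mumfordTate₀ Φ₀)

/-- The equality of `L` with the Lie algebra of the Mumford–Tate group is equivalent to that for `V_0`, if `L` contains `0 × 𝔰𝔭(A_1)(E) × … × 𝔰𝔭(A_k)(E)`. -/
def EqualityReduces (Φ₀ : Matrix (Fin n₀) (Fin n₀) ℂ) (Φ : ∀ i, Matrix (Fin (n i)) (Fin (n i)) ℂ)
    (A : ∀ i, Matrix (Fin (n i)) (Fin (n i)) ℚ) (L : Submodule E (Tup n₀ n E)) : Prop :=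
  L = extend E (mumfordTate Φ₀ Φ) ↔ image L = extend₀ E (mumfordTate₀ Φ₀) ∧ ContainsSp A L

end

/-- For all Hodge structures `H_i` with forms `A_i` on the fibres over `x_i = b_i^(-t_i)` (with the part of type `(w_i, 0)` given by the
period vector): the Lie algebra of the Mumford–Tate group of the sum, and inclusions and equalities with spaces `L` of similitudes over all fields `E`. -/
def Good {n₀ k e : ℕ} {G : Fin k → GSystem} {n : Fin k → ℕ} (Φ₀ : Matrix (Fin n₀) (Fin n₀) ℂ) (u : Fin n₀ → ℚ)
    (F : ∀ i, Periods (G i) (n i) e) (w b t : Fin k → ℕ) : Prop :=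
  ∀ (A : ∀ i, Matrix (Fin (n i)) (Fin (n i)) ℚ) (H : ∀ i, ℕ → Submodule ℂ (Fin (n i) → ℂ)), IsFibre F w b t A H →
    ∀ Φ : ∀ i, Matrix (Fin (n i)) (Fin (n i)) ℂ, (∀ i, IsHodgeOperator (w i) (H i) (Φ i)) →
    IsMaximal Φ₀ Φ u w A ∧
    ∀ (E : Type) [Field E] [Algebra ℚ E] (L : Submodule E (Tup n₀ n E)), (∀ X ∈ L, IsSimilitude E u w A X) →
      InclusionReduces Φ₀ Φ L ∧ EqualityReduces Φ₀ Φ A L

/-- **The theorem.** -/
theorem result (n₀ k e : ℕ) (G : Fin k → GSystem) (n : Fin k → ℕ) (b : Fin k → ℕ) (hb : ∀ i, 2 ≤ b i) :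
    ∃ C : ℝ, 0 ≤ C ∧ ∀ Φ₀ : Matrix (Fin n₀) (Fin n₀) ℂ, IsSplitOperator Φ₀ →
      ∀ u : Fin n₀ → ℚ, u ≠ 0 → Matrix.vecMul (fun a => algebraMap ℚ ℂ (u a)) Φ₀ = (fun a => algebraMap ℚ ℂ (u a)) →
      ∀ F : ∀ i, Periods (G i) (n i) e, ∀ w : Fin k → ℕ, ∀ N : ℕ, 2 ≤ N →
      (({t : Fin k → ℕ | (∀ i, 1 ≤ t i ∧ t i ≤ N) ∧ ¬ Good Φ₀ u F w b t}.ncard : ℕ) : ℝ) * N ≤
        C * (N : ℝ) ^ k * Real.log N := by
  classical
  obtain ⟨C, hC, hcount⟩ := count n₀ e G n b hb
  refine ⟨C, hC, ?_⟩
  intro Φ₀ hΦ₀ u hu hu1 F w N hN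
  refine hcount Φ₀ hΦ₀ F w N hN _ fun t ht => ⟨ht.1, fun hgood => ht.2 ?_⟩
  intro A H hF Φ hop
  have hH : ∀ i, IsHodge (w i) (A i) (H i) := fun i => (hF i).2.1
  have hmt := mt_desc hH (hgood A H hF) hop hu hu1
  refine ⟨fun X => by rw [hmt]; exact Iff.rfl, ?_⟩
  intro E _ _ L hL
  have hle : L ≤ extend E (mumfordTate Φ₀ Φ) ↔ L.map (LinearMap.fst E _ _) ≤ extend₀ E (mumfordTate₀ Φ₀) := by
    rw [hmt]
    constructor
    · rintro h _ ⟨X, hX, rfl⟩
      exact (extend_sim.1 (h hX)).1
    · intro h X hX
      exact extend_sim.2 ⟨h ⟨X, hX, rfl⟩, hL X hX⟩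
  refine ⟨hle, ?_⟩
  constructor
  · intro h
    refine ⟨le_antisymm (hle.1 h.le) ?_, ?_⟩
    · rw [h]
      exact extend_fst (mt_proj Φ₀ Φ)
    · intro X hX
      rw [h, hmt]
      refine extend_sim.2 ⟨Submodule.zero_mem _, 0, ?_, fun i => ?_⟩
      · rw [Matrix.vecMul_zero, zero_smul]
      · rw [zero_mul, zero_smul]
        exact hX i
  · rintro ⟨h1, h2⟩
    refine le_antisymm (hle.2 h1.le) fun X hX => ?_
    rw [hmt] at hX
    obtain ⟨hX1, c, h3, h4⟩ := extend_sim.1 hX
    rw [← h1] at hX1
    obtain ⟨X', hX', hX1'⟩ := hX1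
    have hX1'' : X'.1 = X.1 := hX1'
    obtain ⟨c', h3', h4'⟩ := hL X' hX'
    rw [hX1''] at h3'
    have hc := sim_scalar hu h3 h3'
    subst hc
    have h5 : X = X' + ((0, X.2 - X'.2) : Tup n₀ n E) := by
      refine Prod.ext ?_ ?_
      · rw [Prod.fst_add, hX1'', add_zero]
      · rw [Prod.snd_add]
        exact (add_sub_cancel _ _).symm
    rw [h5]
    refine Submodule.add_mem _ hX' (h2 _ fun i => ?_)
    rw [Pi.sub_apply, Matrix.transpose_sub, Matrix.sub_mul, Matrix.mul_sub, sub_add_sub_comm, h4, h4', sub_self]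

end Pool.Agent.Results.MP_c1bb77_ag.MonodromyInMTAtPowers
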