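import Pool.Agent.X292.TS.Bun

/-!
# Odd degree cohomology at generic fibres of families: one prime is enough

Let `f : X → B` be a smooth projective family of varieties over a number field (or a finitely
generated field of characteristic zero), `s` a point of `B` over which the Galois group `Γ` of the
residue field normalizes the monodromy (for example the generic point, or a closed point outside
a thin set, where the image of the Galois group contains a subgroup of finite index of the closure of
the monodromy), and suppose that the odd degree cohomology `H^i(X_s, Q)` of the fibre is (up to
classes from abelian-type pieces which do not concern us) a sum of Hodge structures `V_i` with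
polarizations `B_i`, alternating forms.  Let `k = Q`, let `P` be the topological fundamental group of
the base, and let `G` be

* the Mumford–Tate group (its points over `F = C`), which normalizes the algebraic monodromy group
  by the theorem of André, or
* the Galois group `Γ`, acting on `F ⊗ V_i` with `F` an algebraic closure of `Q_ℓ`, for ONE prime `ℓ`.

Suppose that the `F ⊗ V_i` are irreducible under all finite-index subgroups of `G` (in the
Hodge case: `End(V_i) = Q` for the Hodge structures), that there are no `G`-maps up to twist between
them, and that for every `i` there is an element `g` of the monodromy group for which one of the
following holds on `V_i` (`HasSpecialElement`):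

* `(g - 1) ^ 2 = 0` and the defects of `g` (the rank of `g - 1`, and the multiplicities of the nonzero
  eigenvalues of the operators `(g - 1) γ (g' - 1) γ⁻¹`, for the `g'` in `P` with `(g' - 1) ^ 2 = 0` and
  `γ` in `G`) have no common prime factor, or two is one of them;
* `g` is unipotent with a Jordan block of size one, all other blocks of even size, and an even number
  which is the size of exactly one block;
* `g` is unipotent with one Jordan block (maximally unipotent monodromy), and `dim V_i = 2` or some
  element of `G` has eigenvalues on `F ⊗ V_i` which are not a geometric progression.

Conclusion: over EVERY extension `K` of `Q` (for example `K = Q`, `C`, and all `Q_ℓ`), every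
multilinear form, and every multilinear map with values in a vector space, on the `K ⊗ V_i` which is
fixed by a finite-index subgroup of the monodromy group `P` is a linear combination of products of
values of the forms `B_i`.  Hence the algebraic monodromy group has identity component
`∏ Sp(V_i, B_i)`, and since it is contained in the derived group of the Mumford–Tate group
(Deligne, André) and in the group `G_ℓ°` for every `ℓ`, we get
`G_ℓ° = MT ⊗ Q_ℓ = G_m ∏ Sp(V_i)` for ALL `ℓ`: the Mumford–Tate conjecture for `⨁ V_i` (these
deductions are not formalized).
-/

set_option autoImplicit false

namespace Pool.Agent.Results.MP_c1bb77_ag.OddDegreeMonodromy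

open Pool.Agent.X292.TG Pool.Agent.X292.TS

/-- **Invariants of the monodromy on families with alternating forms.** -/
theorem result {k : Type} [Field k] [CharZero k] {P : Type} [Group P] {ι : Type} [Finite ι]
    [DecidableEq ι] (N : ι → FormRep k P) (hfin : ∀ i, FiniteDimensional k (N i).V)
    (hN : ∀ i, SymplecticMonodromy (N i).B (N i).ρ) {F : Type} [Field F] [IsAlgClosed F]
    [Algebra k F] {G : Type} [Group G] (σ : ∀ i, G →* (((N i).over F).V →ₗ[F] ((N i).over F).V))
    (hσ : NormalizingGroup (fun i => (N i).over F) σ) (K : Type) [Field K] [Algebra k K] :
    GeneratedByForms fun i => (N i).over K :=
  bundled N hfin hN σ hσ K

end Pool.Agent.Results.MP_c1bb77_ag.OddDegreeMonodromy
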